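import Pool.Agent.H820.F3.Stm

set_option autoImplicit false

/-!
# Linear algebra (adapted from `Pool.Agent.H791.T6.t_lin`)
-/

namespace Pool.Agent.H363.F3

open Pool.Agent.H820.T6 (Z3)

lemma exists_sub {V : Type} [NormedAddCommGroup V] [NormedSpace ℝ V] [FiniteDimensional ℝ V]
    (d : ℕ) (hd : d ≤ Module.finrank ℝ V) (k : ℕ) :
    ∀ W : Submodule ℝ V, Module.finrank ℝ W + k = d →
      ∃ W' : Submodule ℝ V, W ≤ W' ∧ Module.finrank ℝ W' = d := by
  induction k with
  | zero =>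
    intro W h
    exact ⟨W, le_refl _, by omega⟩
  | succ k ih =>
    intro W h
    obtain ⟨v, hv⟩ : ∃ v, v ∉ W := by
      by_contra hcon
      push Not at hcon
      have h1 : W = ⊤ := eq_top_iff.2 fun x _ => hcon x
      rw [h1, finrank_top] at h
      omega
    have hv0 : v ≠ 0 := by
      rintro rfl
      exact hv W.zero_mem
    have h1 : W ⊓ Submodule.span ℝ {v} = ⊥ := by
      rw [← disjoint_iff, Submodule.disjoint_span_singleton' hv0]
      exact hv
    have h2 := Submodule.finrank_sup_add_finrank_inf_eq W (Submodule.span ℝ {v})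
    rw [h1, finrank_bot, finrank_span_singleton hv0] at h2
    obtain ⟨W', hW', hd'⟩ := ih (W ⊔ Submodule.span ℝ {v}) (by omega)
    exact ⟨W', le_sup_left.trans hW', hd'⟩

theorem t_lin : Pool.Agent.H820.F3.S_lin := by
  intro V _ _ _ n hn W hWn
  have hq : 3 * (n / 3) + (n - 3 * (n / 3)) = n := by omega
  set q := n - 3 * (n / 3) with hqdef
  obtain ⟨W', hWW', hW'⟩ := exists_sub (6 * (n / 3)) (by omega)
    (6 * (n / 3) - Module.finrank ℝ W) W (by omega)
  obtain ⟨C, hC⟩ := Submodule.exists_isCompl W'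
  have hCd : Module.finrank ℝ C = 2 * q := by
    have := Submodule.finrank_add_eq_of_isCompl hC
    omega
  have hf1 : Module.finrank ℝ (Fin (n / 3) → Z3) = 6 * (n / 3) := by
    rw [Module.finrank_pi_fintype]
    simp [Module.finrank_pi_fintype, Complex.finrank_real_complex]
    ring
  have hf2 : Module.finrank ℝ (Fin q → ℂ) = 2 * q := by
    rw [Module.finrank_pi_fintype]
    simp [Complex.finrank_real_complex]
    ring
  let e1 : W' ≃ₗ[ℝ] (Fin (n / 3) → Z3) := LinearEquiv.ofFinrankEq _ _ (by rw [hW', hf1])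
  let e2 : C ≃ₗ[ℝ] (Fin q → ℂ) := LinearEquiv.ofFinrankEq _ _ (by rw [hCd, hf2])
  let ψ0 : V ≃ₗ[ℝ] ((Fin (n / 3) → Z3) × (Fin q → ℂ)) :=
    (Submodule.prodEquivOfIsCompl W' C hC).symm.trans (LinearEquiv.prodCongr e1 e2)
  have hψ : ∀ x ∈ W', (ψ0 x).2 = 0 := by
    intro x hx
    have h1 : (Submodule.prodEquivOfIsCompl W' C hC).symm x = (⟨x, hx⟩, 0) :=
      Submodule.prodEquivOfIsCompl_symm_apply_left W' C hC (⟨x, hx⟩ : W')
    have h2 : ψ0 x = (e1 ⟨x, hx⟩, e2 0) := by
      change LinearEquiv.prodCongr e1 e2 ((Submodule.prodEquivOfIsCompl W' C hC).symm x) = _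
      rw [h1]
      rfl
    rw [h2, map_zero]
  exact ⟨q, hq, ψ0.toContinuousLinearEquiv, fun w hw => hψ w (hWW' hw)⟩

end Pool.Agent.H363.F3
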